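import Mathlib

/-!
The group based phylogenetic ideal of the three-leaf claw `K_{1,3}`.
-/

namespace Pool.Agent.H81.Phylo

/-- Group based flows on the claw `K_{1,3}` (edges indexed by `Fin 3`, all oriented toward the
node): functions `f` from the edges to `G` whose values sum to zero. -/
abbrev Flow (G : Type) [AddCommGroup G] : Type := {f : Fin 3 → G // f 0 + f 1 + f 2 = 0}

/-- The monomial map `x_f ↦ ∏ₑ t_{(e, f e)}`. -/
noncomputable def toricMap (G : Type) [AddCommGroup G] :
    MvPolynomial (Flow G) ℂ →ₐ[ℂ] MvPolynomial (Fin 3 × G) ℂ :=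
  MvPolynomial.aeval fun f => ∏ e : Fin 3, MvPolynomial.X (e, f.1 e)

/-- The toric ideal `I(G, K_{1,3})`, the kernel of the monomial map. -/
noncomputable def toricIdeal (G : Type) [AddCommGroup G] : Ideal (MvPolynomial (Flow G) ℂ) :=
  RingHom.ker (toricMap G)

end Pool.Agent.H81.Phylo
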