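import Pool.Agent.H81.Phylo.Defs

open Finset

namespace Pool.Agent.H81.Phylo

/-- one of the two tables -/
def tP : Fin 13 → Fin 13 → ℕ
  | 2, 12 => 2
  | 4, 8 => 2
  | 6, 1 => 4
  | 6, 12 => 1
  | 8, 4 => 1
  | 8, 5 => 2
  | 9, 5 => 1
  | 9, 8 => 1
  | 11, 0 => 2
  | 11, 4 => 1
  | _, _ => 0

/-- the other table -/
def tM : Fin 13 → Fin 13 → ℕ
  | 2, 0 => 1
  | 2, 5 => 1
  | 4, 0 => 1
  | 4, 1 => 1
  | 6, 5 => 2
  | 6, 8 => 3
  | 8, 12 => 3
  | 9, 4 => 2
  | 11, 1 => 3
  | _, _ => 0

lemma tP_rows : ∀ a, ∑ b, tP a b = ∑ b, tM a b := by decide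
lemma tP_cols : ∀ b, ∑ a, tP a b = ∑ a, tM a b := by decide
lemma tP_diag : ∀ c, ∑ a, tP a (-a - c) = ∑ a, tM a (-a - c) := by decide
lemma disj : ∀ a b, tP a b = 0 ∨ tM a b = 0 := by decide
lemma tP_total : ∑ a, ∑ b, tP a b = 17 := by decide

/-- the zero-sum triples inside the supports -/
def T : Finset (Fin 13 × Fin 13) :=
  {(2, 0), (2, 5), (2, 12), (4, 0), (4, 1), (4, 8), (6, 1), (6, 5), (6, 8), (6, 12), (8, 4), (8, 5), (8, 12), (9, 4), (9, 5), (9, 8), (11, 0), (11, 1), (11, 4)}

lemma tPT : ∀ a b, (a, b) ∉ T → tP a b = 0 := by decide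
lemma tMT : ∀ a b, (a, b) ∉ T → tM a b = 0 := by decide

set_option maxRecDepth 10000 in
lemma hT : ∀ a b, (a, b) ∉ T →
    (∑ b, tP a b = 0 ∨ ∑ a, tP a b = 0 ∨ ∑ x, tP x (-x - (-a - b)) = 0) := by decide

lemma sum13 (f : Fin 13 → ℕ) : ∑ i, f i = f 0 + f 1 + f 2 + f 3 + f 4 + f 5 + f 6 + f 7 + f 8 + f 9
    + f 10 + f 11 + f 12 := by
  rw [Fin.sum_univ_castSucc, Fin.sum_univ_castSucc, Fin.sum_univ_castSucc, Fin.sum_univ_castSucc,
    Fin.sum_univ_castSucc, Fin.sum_univ_eight]
  rfl

/-- the fibre has exactly two elements -/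
theorem fiber {n : Fin 13 → Fin 13 → ℕ} (hA : ∀ a, ∑ b, n a b = ∑ b, tP a b)
    (hB : ∀ b, ∑ a, n a b = ∑ a, tP a b) (hC : ∀ c, ∑ a, n a (-a - c) = ∑ a, tP a (-a - c)) :
    (∀ a b, n a b = tP a b) ∨ ∀ a b, n a b = tM a b := by
  have zA : ∀ a, ∑ b, tP a b = 0 → ∀ b, n a b = 0 := by
    intro a ha b
    have := hA a
    rw [ha, Finset.sum_eq_zero_iff] at this
    exact this b (mem_univ b)
  have zB : ∀ b, ∑ a, tP a b = 0 → ∀ a, n a b = 0 := by
    intro b hb a
    have := hB b
    rw [hb, Finset.sum_eq_zero_iff] at this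
    exact this a (mem_univ a)
  have zC : ∀ c, ∑ a, tP a (-a - c) = 0 → ∀ a, n a (-a - c) = 0 := by
    intro c hc a
    have := hC c
    rw [hc, Finset.sum_eq_zero_iff] at this
    exact this a (mem_univ a)
  have z : ∀ a b, (∑ b, tP a b = 0 ∨ ∑ a, tP a b = 0 ∨ ∑ x, tP x (-x - (-a - b)) = 0) →
      n a b = 0 := by
    intro a b h
    rcases h with h | h | h
    · exact zA a h b
    · exact zB b h a
    · have h1 := zC (-a - b) h a
      have h2 : -a - (-a - b) = b := by abel
      rw [h2] at h1
      exact h1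
  have eA2 : n 2 0 + n 2 5 + n 2 12 = 2 := by
    have h := hA 2
    rw [sum13, show (∑ b, tP 2 b) = 2 by decide] at h
    have z1 := z 2 1 (by decide)
    have z2 := z 2 2 (by decide)
    have z3 := z 2 3 (by decide)
    have z4 := z 2 4 (by decide)
    have z6 := z 2 6 (by decide)
    have z7 := z 2 7 (by decide)
    have z8 := z 2 8 (by decide)
    have z9 := z 2 9 (by decide)
    have z10 := z 2 10 (by decide)
    have z11 := z 2 11 (by decide)
    omega
  have eA4 : n 4 0 + n 4 1 + n 4 8 = 2 := by
    have h := hA 4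
    rw [sum13, show (∑ b, tP 4 b) = 2 by decide] at h
    have z2 := z 4 2 (by decide)
    have z3 := z 4 3 (by decide)
    have z4 := z 4 4 (by decide)
    have z5 := z 4 5 (by decide)
    have z6 := z 4 6 (by decide)
    have z7 := z 4 7 (by decide)
    have z9 := z 4 9 (by decide)
    have z10 := z 4 10 (by decide)
    have z11 := z 4 11 (by decide)
    have z12 := z 4 12 (by decide)
    omega
  have eA6 : n 6 1 + n 6 5 + n 6 8 + n 6 12 = 5 := by
    have h := hA 6
    rw [sum13, show (∑ b, tP 6 b) = 5 by decide] at h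
    have z0 := z 6 0 (by decide)
    have z2 := z 6 2 (by decide)
    have z3 := z 6 3 (by decide)
    have z4 := z 6 4 (by decide)
    have z6 := z 6 6 (by decide)
    have z7 := z 6 7 (by decide)
    have z9 := z 6 9 (by decide)
    have z10 := z 6 10 (by decide)
    have z11 := z 6 11 (by decide)
    omega
  have eA8 : n 8 4 + n 8 5 + n 8 12 = 3 := by
    have h := hA 8
    rw [sum13, show (∑ b, tP 8 b) = 3 by decide] at h
    have z0 := z 8 0 (by decide)
    have z1 := z 8 1 (by decide)
    have z2 := z 8 2 (by decide)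
    have z3 := z 8 3 (by decide)
    have z6 := z 8 6 (by decide)
    have z7 := z 8 7 (by decide)
    have z8 := z 8 8 (by decide)
    have z9 := z 8 9 (by decide)
    have z10 := z 8 10 (by decide)
    have z11 := z 8 11 (by decide)
    omega
  have eA9 : n 9 4 + n 9 5 + n 9 8 = 2 := by
    have h := hA 9
    rw [sum13, show (∑ b, tP 9 b) = 2 by decide] at h
    have z0 := z 9 0 (by decide)
    have z1 := z 9 1 (by decide)
    have z2 := z 9 2 (by decide)
    have z3 := z 9 3 (by decide)
    have z6 := z 9 6 (by decide)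
    have z7 := z 9 7 (by decide)
    have z9 := z 9 9 (by decide)
    have z10 := z 9 10 (by decide)
    have z11 := z 9 11 (by decide)
    have z12 := z 9 12 (by decide)
    omega
  have eA11 : n 11 0 + n 11 1 + n 11 4 = 3 := by
    have h := hA 11
    rw [sum13, show (∑ b, tP 11 b) = 3 by decide] at h
    have z2 := z 11 2 (by decide)
    have z3 := z 11 3 (by decide)
    have z5 := z 11 5 (by decide)
    have z6 := z 11 6 (by decide)
    have z7 := z 11 7 (by decide)
    have z8 := z 11 8 (by decide)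
    have z9 := z 11 9 (by decide)
    have z10 := z 11 10 (by decide)
    have z11 := z 11 11 (by decide)
    have z12 := z 11 12 (by decide)
    omega
  have eB0 : n 2 0 + n 4 0 + n 11 0 = 2 := by
    have h := hB 0
    rw [sum13, show (∑ a, tP a 0) = 2 by decide] at h
    have z0 := z 0 0 (by decide)
    have z1 := z 1 0 (by decide)
    have z3 := z 3 0 (by decide)
    have z5 := z 5 0 (by decide)
    have z6 := z 6 0 (by decide)
    have z7 := z 7 0 (by decide)
    have z8 := z 8 0 (by decide)
    have z9 := z 9 0 (by decide)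
    have z10 := z 10 0 (by decide)
    have z12 := z 12 0 (by decide)
    omega
  have eB1 : n 4 1 + n 6 1 + n 11 1 = 4 := by
    have h := hB 1
    rw [sum13, show (∑ a, tP a 1) = 4 by decide] at h
    have z0 := z 0 1 (by decide)
    have z1 := z 1 1 (by decide)
    have z2 := z 2 1 (by decide)
    have z3 := z 3 1 (by decide)
    have z5 := z 5 1 (by decide)
    have z7 := z 7 1 (by decide)
    have z8 := z 8 1 (by decide)
    have z9 := z 9 1 (by decide)
    have z10 := z 10 1 (by decide)
    have z12 := z 12 1 (by decide)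
    omega
  have eB4 : n 8 4 + n 9 4 + n 11 4 = 2 := by
    have h := hB 4
    rw [sum13, show (∑ a, tP a 4) = 2 by decide] at h
    have z0 := z 0 4 (by decide)
    have z1 := z 1 4 (by decide)
    have z2 := z 2 4 (by decide)
    have z3 := z 3 4 (by decide)
    have z4 := z 4 4 (by decide)
    have z5 := z 5 4 (by decide)
    have z6 := z 6 4 (by decide)
    have z7 := z 7 4 (by decide)
    have z10 := z 10 4 (by decide)
    have z12 := z 12 4 (by decide)
    omega
  have eB5 : n 2 5 + n 6 5 + n 8 5 + n 9 5 = 3 := by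
    have h := hB 5
    rw [sum13, show (∑ a, tP a 5) = 3 by decide] at h
    have z0 := z 0 5 (by decide)
    have z1 := z 1 5 (by decide)
    have z3 := z 3 5 (by decide)
    have z4 := z 4 5 (by decide)
    have z5 := z 5 5 (by decide)
    have z7 := z 7 5 (by decide)
    have z10 := z 10 5 (by decide)
    have z11 := z 11 5 (by decide)
    have z12 := z 12 5 (by decide)
    omega
  have eB8 : n 4 8 + n 6 8 + n 9 8 = 3 := by
    have h := hB 8
    rw [sum13, show (∑ a, tP a 8) = 3 by decide] at h
    have z0 := z 0 8 (by decide)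
    have z1 := z 1 8 (by decide)
    have z2 := z 2 8 (by decide)
    have z3 := z 3 8 (by decide)
    have z5 := z 5 8 (by decide)
    have z7 := z 7 8 (by decide)
    have z8 := z 8 8 (by decide)
    have z10 := z 10 8 (by decide)
    have z11 := z 11 8 (by decide)
    have z12 := z 12 8 (by decide)
    omega
  have eB12 : n 2 12 + n 6 12 + n 8 12 = 3 := by
    have h := hB 12
    rw [sum13, show (∑ a, tP a 12) = 3 by decide] at h
    have z0 := z 0 12 (by decide)
    have z1 := z 1 12 (by decide)
    have z3 := z 3 12 (by decide)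
    have z4 := z 4 12 (by decide)
    have z5 := z 5 12 (by decide)
    have z7 := z 7 12 (by decide)
    have z9 := z 9 12 (by decide)
    have z10 := z 10 12 (by decide)
    have z11 := z 11 12 (by decide)
    have z12 := z 12 12 (by decide)
    omega
  have eC0 : n 8 5 + n 9 4 = 2 := by
    have h := hC 0
    rw [sum13, show (∑ a, tP a (-a - 0)) = 2 by decide] at h
    rw [show (-0 - 0 : Fin 13) = 0 by decide] at h
    rw [show (-1 - 0 : Fin 13) = 12 by decide] at h
    rw [show (-2 - 0 : Fin 13) = 11 by decide] at h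
    rw [show (-3 - 0 : Fin 13) = 10 by decide] at h
    rw [show (-4 - 0 : Fin 13) = 9 by decide] at h
    rw [show (-5 - 0 : Fin 13) = 8 by decide] at h
    rw [show (-6 - 0 : Fin 13) = 7 by decide] at h
    rw [show (-7 - 0 : Fin 13) = 6 by decide] at h
    rw [show (-8 - 0 : Fin 13) = 5 by decide] at h
    rw [show (-9 - 0 : Fin 13) = 4 by decide] at h
    rw [show (-10 - 0 : Fin 13) = 3 by decide] at h
    rw [show (-11 - 0 : Fin 13) = 2 by decide] at h
    rw [show (-12 - 0 : Fin 13) = 1 by decide] at h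
    have z0 := z 0 0 (by decide)
    have z1 := z 1 12 (by decide)
    have z2 := z 2 11 (by decide)
    have z3 := z 3 10 (by decide)
    have z4 := z 4 9 (by decide)
    have z5 := z 5 8 (by decide)
    have z6 := z 6 7 (by decide)
    have z7 := z 7 6 (by decide)
    have z10 := z 10 3 (by decide)
    have z11 := z 11 2 (by decide)
    have z12 := z 12 1 (by decide)
    omega
  have eC1 : n 4 8 + n 8 4 + n 11 1 = 3 := by
    have h := hC 1
    rw [sum13, show (∑ a, tP a (-a - 1)) = 3 by decide] at h
    rw [show (-0 - 1 : Fin 13) = 12 by decide] at h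
    rw [show (-1 - 1 : Fin 13) = 11 by decide] at h
    rw [show (-2 - 1 : Fin 13) = 10 by decide] at h
    rw [show (-3 - 1 : Fin 13) = 9 by decide] at h
    rw [show (-4 - 1 : Fin 13) = 8 by decide] at h
    rw [show (-5 - 1 : Fin 13) = 7 by decide] at h
    rw [show (-6 - 1 : Fin 13) = 6 by decide] at h
    rw [show (-7 - 1 : Fin 13) = 5 by decide] at h
    rw [show (-8 - 1 : Fin 13) = 4 by decide] at h
    rw [show (-9 - 1 : Fin 13) = 3 by decide] at h
    rw [show (-10 - 1 : Fin 13) = 2 by decide] at h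
    rw [show (-11 - 1 : Fin 13) = 1 by decide] at h
    rw [show (-12 - 1 : Fin 13) = 0 by decide] at h
    have z0 := z 0 12 (by decide)
    have z1 := z 1 11 (by decide)
    have z2 := z 2 10 (by decide)
    have z3 := z 3 9 (by decide)
    have z5 := z 5 7 (by decide)
    have z6 := z 6 6 (by decide)
    have z7 := z 7 5 (by decide)
    have z9 := z 9 3 (by decide)
    have z10 := z 10 2 (by decide)
    have z12 := z 12 0 (by decide)
    omega
  have eC2 : n 6 5 + n 11 0 = 2 := by
    have h := hC 2
    rw [sum13, show (∑ a, tP a (-a - 2)) = 2 by decide] at h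
    rw [show (-0 - 2 : Fin 13) = 11 by decide] at h
    rw [show (-1 - 2 : Fin 13) = 10 by decide] at h
    rw [show (-2 - 2 : Fin 13) = 9 by decide] at h
    rw [show (-3 - 2 : Fin 13) = 8 by decide] at h
    rw [show (-4 - 2 : Fin 13) = 7 by decide] at h
    rw [show (-5 - 2 : Fin 13) = 6 by decide] at h
    rw [show (-6 - 2 : Fin 13) = 5 by decide] at h
    rw [show (-7 - 2 : Fin 13) = 4 by decide] at h
    rw [show (-8 - 2 : Fin 13) = 3 by decide] at h
    rw [show (-9 - 2 : Fin 13) = 2 by decide] at h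
    rw [show (-10 - 2 : Fin 13) = 1 by decide] at h
    rw [show (-11 - 2 : Fin 13) = 0 by decide] at h
    rw [show (-12 - 2 : Fin 13) = 12 by decide] at h
    have z0 := z 0 11 (by decide)
    have z1 := z 1 10 (by decide)
    have z2 := z 2 9 (by decide)
    have z3 := z 3 8 (by decide)
    have z4 := z 4 7 (by decide)
    have z5 := z 5 6 (by decide)
    have z7 := z 7 4 (by decide)
    have z8 := z 8 3 (by decide)
    have z9 := z 9 2 (by decide)
    have z10 := z 10 1 (by decide)
    have z12 := z 12 12 (by decide)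
    omega
  have eC6 : n 2 5 + n 6 1 + n 8 12 = 4 := by
    have h := hC 6
    rw [sum13, show (∑ a, tP a (-a - 6)) = 4 by decide] at h
    rw [show (-0 - 6 : Fin 13) = 7 by decide] at h
    rw [show (-1 - 6 : Fin 13) = 6 by decide] at h
    rw [show (-2 - 6 : Fin 13) = 5 by decide] at h
    rw [show (-3 - 6 : Fin 13) = 4 by decide] at h
    rw [show (-4 - 6 : Fin 13) = 3 by decide] at h
    rw [show (-5 - 6 : Fin 13) = 2 by decide] at h
    rw [show (-6 - 6 : Fin 13) = 1 by decide] at h
    rw [show (-7 - 6 : Fin 13) = 0 by decide] at h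
    rw [show (-8 - 6 : Fin 13) = 12 by decide] at h
    rw [show (-9 - 6 : Fin 13) = 11 by decide] at h
    rw [show (-10 - 6 : Fin 13) = 10 by decide] at h
    rw [show (-11 - 6 : Fin 13) = 9 by decide] at h
    rw [show (-12 - 6 : Fin 13) = 8 by decide] at h
    have z0 := z 0 7 (by decide)
    have z1 := z 1 6 (by decide)
    have z3 := z 3 4 (by decide)
    have z4 := z 4 3 (by decide)
    have z5 := z 5 2 (by decide)
    have z7 := z 7 0 (by decide)
    have z9 := z 9 11 (by decide)
    have z10 := z 10 10 (by decide)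
    have z11 := z 11 9 (by decide)
    have z12 := z 12 8 (by decide)
    omega
  have eC8 : n 4 1 + n 6 12 = 1 := by
    have h := hC 8
    rw [sum13, show (∑ a, tP a (-a - 8)) = 1 by decide] at h
    rw [show (-0 - 8 : Fin 13) = 5 by decide] at h
    rw [show (-1 - 8 : Fin 13) = 4 by decide] at h
    rw [show (-2 - 8 : Fin 13) = 3 by decide] at h
    rw [show (-3 - 8 : Fin 13) = 2 by decide] at h
    rw [show (-4 - 8 : Fin 13) = 1 by decide] at h
    rw [show (-5 - 8 : Fin 13) = 0 by decide] at h
    rw [show (-6 - 8 : Fin 13) = 12 by decide] at h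
    rw [show (-7 - 8 : Fin 13) = 11 by decide] at h
    rw [show (-8 - 8 : Fin 13) = 10 by decide] at h
    rw [show (-9 - 8 : Fin 13) = 9 by decide] at h
    rw [show (-10 - 8 : Fin 13) = 8 by decide] at h
    rw [show (-11 - 8 : Fin 13) = 7 by decide] at h
    rw [show (-12 - 8 : Fin 13) = 6 by decide] at h
    have z0 := z 0 5 (by decide)
    have z1 := z 1 4 (by decide)
    have z2 := z 2 3 (by decide)
    have z3 := z 3 2 (by decide)
    have z5 := z 5 0 (by decide)
    have z7 := z 7 11 (by decide)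
    have z8 := z 8 10 (by decide)
    have z9 := z 9 9 (by decide)
    have z10 := z 10 8 (by decide)
    have z11 := z 11 7 (by decide)
    have z12 := z 12 6 (by decide)
    omega
  have eC9 : n 4 0 + n 9 8 = 1 := by
    have h := hC 9
    rw [sum13, show (∑ a, tP a (-a - 9)) = 1 by decide] at h
    rw [show (-0 - 9 : Fin 13) = 4 by decide] at h
    rw [show (-1 - 9 : Fin 13) = 3 by decide] at h
    rw [show (-2 - 9 : Fin 13) = 2 by decide] at h
    rw [show (-3 - 9 : Fin 13) = 1 by decide] at h
    rw [show (-4 - 9 : Fin 13) = 0 by decide] at h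
    rw [show (-5 - 9 : Fin 13) = 12 by decide] at h
    rw [show (-6 - 9 : Fin 13) = 11 by decide] at h
    rw [show (-7 - 9 : Fin 13) = 10 by decide] at h
    rw [show (-8 - 9 : Fin 13) = 9 by decide] at h
    rw [show (-9 - 9 : Fin 13) = 8 by decide] at h
    rw [show (-10 - 9 : Fin 13) = 7 by decide] at h
    rw [show (-11 - 9 : Fin 13) = 6 by decide] at h
    rw [show (-12 - 9 : Fin 13) = 5 by decide] at h
    have z0 := z 0 4 (by decide)
    have z1 := z 1 3 (by decide)
    have z2 := z 2 2 (by decide)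
    have z3 := z 3 1 (by decide)
    have z5 := z 5 12 (by decide)
    have z6 := z 6 11 (by decide)
    have z7 := z 7 10 (by decide)
    have z8 := z 8 9 (by decide)
    have z10 := z 10 7 (by decide)
    have z11 := z 11 6 (by decide)
    have z12 := z 12 5 (by decide)
    omega
  have eC11 : n 2 0 + n 11 4 = 1 := by
    have h := hC 11
    rw [sum13, show (∑ a, tP a (-a - 11)) = 1 by decide] at h
    rw [show (-0 - 11 : Fin 13) = 2 by decide] at h
    rw [show (-1 - 11 : Fin 13) = 1 by decide] at h
    rw [show (-2 - 11 : Fin 13) = 0 by decide] at h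
    rw [show (-3 - 11 : Fin 13) = 12 by decide] at h
    rw [show (-4 - 11 : Fin 13) = 11 by decide] at h
    rw [show (-5 - 11 : Fin 13) = 10 by decide] at h
    rw [show (-6 - 11 : Fin 13) = 9 by decide] at h
    rw [show (-7 - 11 : Fin 13) = 8 by decide] at h
    rw [show (-8 - 11 : Fin 13) = 7 by decide] at h
    rw [show (-9 - 11 : Fin 13) = 6 by decide] at h
    rw [show (-10 - 11 : Fin 13) = 5 by decide] at h
    rw [show (-11 - 11 : Fin 13) = 4 by decide] at h
    rw [show (-12 - 11 : Fin 13) = 3 by decide] at h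
    have z0 := z 0 2 (by decide)
    have z1 := z 1 1 (by decide)
    have z3 := z 3 12 (by decide)
    have z4 := z 4 11 (by decide)
    have z5 := z 5 10 (by decide)
    have z6 := z 6 9 (by decide)
    have z7 := z 7 8 (by decide)
    have z8 := z 8 7 (by decide)
    have z9 := z 9 6 (by decide)
    have z10 := z 10 5 (by decide)
    have z12 := z 12 3 (by decide)
    omega
  have eC12 : n 2 12 + n 6 8 + n 9 5 = 3 := by
    have h := hC 12
    rw [sum13, show (∑ a, tP a (-a - 12)) = 3 by decide] at h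
    rw [show (-0 - 12 : Fin 13) = 1 by decide] at h
    rw [show (-1 - 12 : Fin 13) = 0 by decide] at h
    rw [show (-2 - 12 : Fin 13) = 12 by decide] at h
    rw [show (-3 - 12 : Fin 13) = 11 by decide] at h
    rw [show (-4 - 12 : Fin 13) = 10 by decide] at h
    rw [show (-5 - 12 : Fin 13) = 9 by decide] at h
    rw [show (-6 - 12 : Fin 13) = 8 by decide] at h
    rw [show (-7 - 12 : Fin 13) = 7 by decide] at h
    rw [show (-8 - 12 : Fin 13) = 6 by decide] at h
    rw [show (-9 - 12 : Fin 13) = 5 by decide] at h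
    rw [show (-10 - 12 : Fin 13) = 4 by decide] at h
    rw [show (-11 - 12 : Fin 13) = 3 by decide] at h
    rw [show (-12 - 12 : Fin 13) = 2 by decide] at h
    have z0 := z 0 1 (by decide)
    have z1 := z 1 0 (by decide)
    have z3 := z 3 11 (by decide)
    have z4 := z 4 10 (by decide)
    have z5 := z 5 9 (by decide)
    have z7 := z 7 7 (by decide)
    have z8 := z 8 6 (by decide)
    have z10 := z 10 4 (by decide)
    have z11 := z 11 3 (by decide)
    have z12 := z 12 2 (by decide)
    omega
  have hcase : n 2 0 = 0 ∨ n 2 0 = 1 := by omega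
  rcases hcase with h0 | h0
  · left
    intro a b
    by_cases hab : (a, b) ∈ T
    · simp only [T, mem_insert, mem_singleton, Prod.mk.injEq] at hab
      rcases hab with ⟨rfl, rfl⟩ | ⟨rfl, rfl⟩ | ⟨rfl, rfl⟩ | ⟨rfl, rfl⟩ | ⟨rfl, rfl⟩ | ⟨rfl, rfl⟩ | ⟨rfl, rfl⟩ | ⟨rfl, rfl⟩ | ⟨rfl, rfl⟩ | ⟨rfl, rfl⟩ | ⟨rfl, rfl⟩ | ⟨rfl, rfl⟩ | ⟨rfl, rfl⟩ | ⟨rfl, rfl⟩ | ⟨rfl, rfl⟩ | ⟨rfl, rfl⟩ | ⟨rfl, rfl⟩ | ⟨rfl, rfl⟩ | ⟨rfl, rfl⟩
      · change n 2 0 = 0
        omega
      · change n 2 5 = 0
        omega
      · change n 2 12 = 2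
        omega
      · change n 4 0 = 0
        omega
      · change n 4 1 = 0
        omega
      · change n 4 8 = 2
        omega
      · change n 6 1 = 4
        omega
      · change n 6 5 = 0
        omega
      · change n 6 8 = 0
        omega
      · change n 6 12 = 1
        omega
      · change n 8 4 = 1
        omega
      · change n 8 5 = 2
        omega
      · change n 8 12 = 0
        omega
      · change n 9 4 = 0
        omega
      · change n 9 5 = 1
        omega
      · change n 9 8 = 1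
        omega
      · change n 11 0 = 2
        omega
      · change n 11 1 = 0
        omega
      · change n 11 4 = 1
        omega
    · rw [z a b (hT a b hab), tPT a b hab]
  · right
    intro a b
    by_cases hab : (a, b) ∈ T
    · simp only [T, mem_insert, mem_singleton, Prod.mk.injEq] at hab
      rcases hab with ⟨rfl, rfl⟩ | ⟨rfl, rfl⟩ | ⟨rfl, rfl⟩ | ⟨rfl, rfl⟩ | ⟨rfl, rfl⟩ | ⟨rfl, rfl⟩ | ⟨rfl, rfl⟩ | ⟨rfl, rfl⟩ | ⟨rfl, rfl⟩ | ⟨rfl, rfl⟩ | ⟨rfl, rfl⟩ | ⟨rfl, rfl⟩ | ⟨rfl, rfl⟩ | ⟨rfl, rfl⟩ | ⟨rfl, rfl⟩ | ⟨rfl, rfl⟩ | ⟨rfl, rfl⟩ | ⟨rfl, rfl⟩ | ⟨rfl, rfl⟩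
      · change n 2 0 = 1
        omega
      · change n 2 5 = 1
        omega
      · change n 2 12 = 0
        omega
      · change n 4 0 = 1
        omega
      · change n 4 1 = 1
        omega
      · change n 4 8 = 0
        omega
      · change n 6 1 = 0
        omega
      · change n 6 5 = 2
        omega
      · change n 6 8 = 3
        omega
      · change n 6 12 = 0
        omega
      · change n 8 4 = 0
        omega
      · change n 8 5 = 0
        omega
      · change n 8 12 = 3
        omega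
      · change n 9 4 = 2
        omega
      · change n 9 5 = 0
        omega
      · change n 9 8 = 0
        omega
      · change n 11 0 = 0
        omega
      · change n 11 1 = 3
        omega
      · change n 11 4 = 0
        omega
    · rw [z a b (hT a b hab), tMT a b hab]

end Pool.Agent.H81.Phylo
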