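import Pool.Agent.H81.Phylo.Fiber

open Finset MvPolynomial

namespace Pool.Agent.H81.Phylo

section general

variable {G : Type} [AddCommGroup G]

/-- the multidegree of a monomial -/
noncomputable def degM (m : Flow G →₀ ℕ) : Fin 3 × G →₀ ℕ :=
  m.sum fun f k => k • (∑ e : Fin 3, Finsupp.single (e, f.1 e) 1)

lemma degM_add (m m' : Flow G →₀ ℕ) : degM (m + m') = degM m + degM m' := by
  classical
  exact Finsupp.sum_add_index' (h := fun (f : Flow G) (k : ℕ) =>
    k • (∑ e : Fin 3, (Finsupp.single (e, f.1 e) 1 : Fin 3 × G →₀ ℕ)))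
    (fun _ => zero_smul _ _) (fun _ _ _ => add_smul _ _ _)

lemma toricMap_monomial (m : Flow G →₀ ℕ) (c : ℂ) :
    toricMap G (monomial m c) = monomial (degM m) c := by
  rw [toricMap, aeval_monomial]
  have h1 : ∀ f : Flow G, (∏ e : Fin 3, (X (e, f.1 e) : MvPolynomial (Fin 3 × G) ℂ))
      = monomial (∑ e : Fin 3, Finsupp.single (e, f.1 e) 1) 1 := by
    intro f
    rw [monomial_sum_one]
    rfl
  have h2 : (m.prod fun f k => (∏ e : Fin 3, (X (e, f.1 e) : MvPolynomial (Fin 3 × G) ℂ)) ^ k)
      = monomial (degM m) 1 := by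
    rw [degM, Finsupp.sum, monomial_sum_one, Finsupp.prod]
    apply Finset.prod_congr rfl
    intro f _
    rw [h1, monomial_pow, one_pow]
  rw [h2, algebraMap_eq, C_mul_monomial, mul_one]

lemma coeff_toricMap (g : MvPolynomial (Flow G) ℂ) (ν : Fin 3 × G →₀ ℕ) :
    coeff ν (toricMap G g) = ∑ m ∈ g.support, open Classical in if degM m = ν then coeff m g else 0 := by
  classical
  conv_lhs => rw [g.as_sum]
  rw [map_sum, coeff_sum]
  apply Finset.sum_congr rfl
  intro m _
  rw [toricMap_monomial, coeff_monomial]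

lemma coeff_zero_of_unique {g : MvPolynomial (Flow G) ℂ} (hg : g ∈ toricIdeal G)
    {N : Flow G →₀ ℕ} (hu : ∀ m, degM m = degM N → m = N) : coeff N g = 0 := by
  classical
  have h1 : toricMap G g = 0 := hg
  have h2 := coeff_toricMap g (degM N)
  rw [h1, coeff_zero] at h2
  have h3 : ∑ m ∈ g.support, (if degM m = degM N then coeff m g else 0)
      = ∑ m ∈ g.support, (if m = N then coeff m g else 0) := by
    apply Finset.sum_congr rfl
    intro m _
    by_cases h : m = N
    · rw [if_pos h, if_pos (by rw [h])]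
    · rw [if_neg h, if_neg (fun h' => h (hu m h'))]
  rw [h3, Finset.sum_ite_eq'] at h2
  by_cases h : N ∈ g.support
  · rw [if_pos h] at h2; exact h2.symm
  · exact notMem_support_iff.1 h

/-- A fibre with two disjoint elements forces a generator of that degree. -/
theorem exists_large_generator {P M : Flow G →₀ ℕ} (hdeg : degM P = degM M)
    (hfib : ∀ m, degM m = degM P → m = P ∨ m = M) (hdisj : ∀ f, P f = 0 ∨ M f = 0)
    (hne : P ≠ M) {S : Set (MvPolynomial (Flow G) ℂ)} (hS : Ideal.span S = toricIdeal G) :
    ∃ p ∈ S, (P.sum fun _ k => k) ≤ p.totalDegree := by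
  classical
  by_contra hcon
  push Not at hcon
  -- polynomials in the ideal have no monomial strictly dividing `P`
  have h1 : ∀ g ∈ toricIdeal G, ∀ N ≤ P, N ≠ P → coeff N g = 0 := by
    intro g hg N hN hNP
    apply coeff_zero_of_unique hg
    intro m hm
    have h2 : degM (m + (P - N)) = degM P := by
      rw [degM_add, hm, ← degM_add, add_tsub_cancel_of_le hN]
    rcases hfib _ h2 with h3 | h3
    · have : m + (P - N) = N + (P - N) := by rw [h3, add_tsub_cancel_of_le hN]
      exact add_right_cancel this
    · exfalso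
      apply hNP
      apply le_antisymm hN
      intro f
      have h4 : m f + (P f - N f) = M f := by
        have := DFunLike.congr_fun h3 f
        simpa using this
      rcases hdisj f with h5 | h5
      · rw [h5]; exact Nat.zero_le _
      · omega
  have h2 : ∀ g ∈ S, ∀ N ≤ P, coeff N g = 0 := by
    intro g hg N hN
    have hgI : g ∈ toricIdeal G := by rw [← hS]; exact Ideal.subset_span hg
    by_cases hNP : N = P
    · rw [hNP]
      apply coeff_eq_zero_of_totalDegree_lt
      exact hcon g hg
    · exact h1 g hgI N hN hNP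
  -- the ideal of polynomials without monomials dividing `P`
  let J : Ideal (MvPolynomial (Flow G) ℂ) :=
    { carrier := {q | ∀ N ≤ P, coeff N q = 0}
      add_mem' := by
        intro a b ha hb N hN
        rw [coeff_add, ha N hN, hb N hN, add_zero]
      zero_mem' := by
        intro N _
        exact coeff_zero N
      smul_mem' := by
        intro c a ha N hN
        rw [smul_eq_mul, coeff_mul]
        apply Finset.sum_eq_zero
        intro x hx
        have hx2 : x.2 ≤ N := by
          rw [HasAntidiagonal.mem_antidiagonal] at hx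
          rw [← hx]; exact le_add_self
        rw [ha x.2 (hx2.trans hN), mul_zero] }
  have h3 : Ideal.span S ≤ J := Ideal.span_le.2 h2
  have h4 : (monomial P 1 - monomial M 1 : MvPolynomial (Flow G) ℂ) ∈ toricIdeal G := by
    change toricMap G (monomial P 1 - monomial M 1) = 0
    rw [map_sub, toricMap_monomial, toricMap_monomial, hdeg, sub_self]
  rw [← hS] at h4
  have h5 := h3 h4 P le_rfl
  rw [coeff_sub, coeff_monomial, coeff_monomial, if_pos rfl, if_neg (Ne.symm hne), sub_zero] at h5
  exact one_ne_zero h5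

/-- the flow with first two values `a`, `b` -/
def fl (a b : G) : Flow G := ⟨![a, b, -a - b], by simp⟩

/-- flows are pairs -/
def flEquiv : G × G ≃ Flow G where
  toFun p := fl p.1 p.2
  invFun f := (f.1 0, f.1 1)
  left_inv p := by simp [fl]
  right_inv f := by
    apply Subtype.ext
    funext i
    fin_cases i
    · rfl
    · rfl
    · change -f.1 0 - f.1 1 = f.1 2
      have := f.2
      rw [← sub_eq_zero]
      have h2 : -f.1 0 - f.1 1 - f.1 2 = -(f.1 0 + f.1 1 + f.1 2) := by abel
      rw [h2, this, neg_zero]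

variable [Fintype G] [DecidableEq G]

lemma degM_apply (m : Flow G →₀ ℕ) (e : Fin 3) (x : G) :
    degM m (e, x) = ∑ a, ∑ b, if (fl a b).1 e = x then m (fl a b) else 0 := by
  classical
  have h1 : degM m (e, x) = ∑ f : Flow G, if f.1 e = x then m f else 0 := by
    have h0 : degM m = ∑ f : Flow G,
        m f • (∑ e : Fin 3, (Finsupp.single (e, f.1 e) 1 : Fin 3 × G →₀ ℕ)) :=
      Finsupp.sum_fintype m (fun (f : Flow G) (k : ℕ) =>
        k • (∑ e : Fin 3, (Finsupp.single (e, f.1 e) 1 : Fin 3 × G →₀ ℕ)))
        (fun _ => zero_smul _ _)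
    rw [h0, Finsupp.finsetSum_apply]
    apply Finset.sum_congr rfl
    intro f _
    rw [Finsupp.smul_apply, Finsupp.finsetSum_apply]
    have h2 : ∀ i : Fin 3, (Finsupp.single (i, f.1 i) 1 : Fin 3 × G →₀ ℕ) (e, x)
        = if i = e then (if f.1 e = x then 1 else 0) else 0 := by
      intro i
      rw [Finsupp.single_apply]
      by_cases hi : i = e
      · subst hi
        simp
      · rw [if_neg hi, if_neg]
        intro h; exact hi (congrArg Prod.fst h)
    rw [Finset.sum_congr rfl (fun i _ => h2 i), Finset.sum_ite_eq' , if_pos (mem_univ e)]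
    split_ifs <;> simp
  rw [h1, ← flEquiv.sum_comp, Fintype.sum_prod_type]
  rfl

lemma degM_zero (m : Flow G →₀ ℕ) (x : G) : degM m (0, x) = ∑ b, m (fl x b) := by
  rw [degM_apply]
  have : ∀ a, (∑ b, if (fl a b).1 0 = x then m (fl a b) else 0)
      = if a = x then ∑ b, m (fl a b) else 0 := by
    intro a
    by_cases h : a = x
    · rw [if_pos h]
      apply Finset.sum_congr rfl
      intro b _
      rw [if_pos]; exact h
    · rw [if_neg h]
      apply Finset.sum_eq_zero
      intro b _
      rw [if_neg]; exact h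
  rw [Finset.sum_congr rfl (fun a _ => this a), Finset.sum_ite_eq', if_pos (mem_univ x)]

lemma degM_one (m : Flow G →₀ ℕ) (x : G) : degM m (1, x) = ∑ a, m (fl a x) := by
  rw [degM_apply]
  apply Finset.sum_congr rfl
  intro a _
  have : ∀ b, (if (fl a b).1 1 = x then m (fl a b) else 0) = if b = x then m (fl a b) else 0 := by
    intro b; rfl
  rw [Finset.sum_congr rfl (fun b _ => this b), Finset.sum_ite_eq', if_pos (mem_univ x)]

lemma degM_two (m : Flow G →₀ ℕ) (x : G) : degM m (2, x) = ∑ a, m (fl a (-a - x)) := by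
  rw [degM_apply]
  apply Finset.sum_congr rfl
  intro a _
  have : ∀ b, (if (fl a b).1 2 = x then m (fl a b) else 0)
      = if b = -a - x then m (fl a b) else 0 := by
    intro b
    have h1 : (fl a b).1 2 = x ↔ b = -a - x := by
      change -a - b = x ↔ b = -a - x
      constructor
      · intro h; rw [← h]; abel
      · intro h; rw [h]; abel
    simp only [h1]
  rw [Finset.sum_congr rfl (fun b _ => this b), Finset.sum_ite_eq', if_pos (mem_univ _)]

end general

/-- the monomial of a table -/
noncomputable def mon (t : Fin 13 → Fin 13 → ℕ) : Flow (ZMod 13) →₀ ℕ :=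
  Finsupp.equivFunOnFinite.symm (fun f => t (f.1 0) (f.1 1))

lemma mon_apply (t : Fin 13 → Fin 13 → ℕ) (f : Flow (ZMod 13)) : mon t f = t (f.1 0) (f.1 1) := rfl

lemma mon_fl (t : Fin 13 → Fin 13 → ℕ) (a b : ZMod 13) : mon t (fl a b) = t a b := rfl

theorem main {S : Set (MvPolynomial (Flow (ZMod 13)) ℂ)}
    (hS : Ideal.span S = toricIdeal (ZMod 13)) : ∃ p ∈ S, 17 ≤ p.totalDegree := by
  have hext : ∀ m m' : Flow (ZMod 13) →₀ ℕ, (∀ a b, m (fl a b) = m' (fl a b)) → m = m' := by
    intro m m' h
    ext f
    have := h (f.1 0) (f.1 1)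
    have e : fl (f.1 0) (f.1 1) = f := flEquiv.right_inv f
    rwa [e] at this
  have hdeg : degM (mon tP) = degM (mon tM) := by
    ext ⟨e, x⟩
    fin_cases e
    · change degM (mon tP) (0, x) = degM (mon tM) (0, x)
      rw [degM_zero, degM_zero]
      exact tP_rows x
    · change degM (mon tP) (1, x) = degM (mon tM) (1, x)
      rw [degM_one, degM_one]
      exact tP_cols x
    · change degM (mon tP) (2, x) = degM (mon tM) (2, x)
      rw [degM_two, degM_two]
      exact tP_diag x
  have hfib : ∀ m, degM m = degM (mon tP) → m = mon tP ∨ m = mon tM := by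
    intro m hm
    have hA : ∀ a : Fin 13, ∑ b : Fin 13, m (fl (G := ZMod 13) a b) = ∑ b, tP a b := by
      intro a
      exact (degM_zero (G := ZMod 13) m a).symm.trans ((DFunLike.congr_fun hm
        ((0 : Fin 3), (a : ZMod 13))).trans (degM_zero (G := ZMod 13) (mon tP) a))
    have hB : ∀ b : Fin 13, ∑ a : Fin 13, m (fl (G := ZMod 13) a b) = ∑ a, tP a b := by
      intro b
      exact (degM_one (G := ZMod 13) m b).symm.trans ((DFunLike.congr_fun hm
        ((1 : Fin 3), (b : ZMod 13))).trans (degM_one (G := ZMod 13) (mon tP) b))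
    have hC : ∀ c : Fin 13, ∑ a : Fin 13, m (fl (G := ZMod 13) a (-a - c))
        = ∑ a, tP a (-a - c) := by
      intro c
      exact (degM_two (G := ZMod 13) m c).symm.trans ((DFunLike.congr_fun hm
        ((2 : Fin 3), (c : ZMod 13))).trans (degM_two (G := ZMod 13) (mon tP) c))
    rcases fiber (n := fun a b => m (fl (G := ZMod 13) a b)) hA hB hC with h | h
    · left; exact hext _ _ h
    · right; exact hext _ _ h
  have hne : mon tP ≠ mon tM := by
    intro h
    have := DFunLike.congr_fun h (fl (G := ZMod 13) 2 12)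
    rw [mon_fl, mon_fl] at this
    revert this
    decide
  obtain ⟨p, hp, hp2⟩ := exists_large_generator hdeg hfib (fun f => disj _ _) hne hS
  refine ⟨p, hp, ?_⟩
  have h17 : ((mon tP).sum fun _ k => k) = 17 := by
    rw [Finsupp.sum_fintype _ _ (fun _ => rfl), ← flEquiv.sum_comp, Fintype.sum_prod_type]
    exact tP_total
  rw [h17] at hp2
  exact hp2

end Pool.Agent.H81.Phylo
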